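import Pool.Agent.H7.LP.Targets

/-!
# PNC. Perfectly many orbits are not countably many (MP_5607ba_lc)
-/

set_option autoImplicit false

open Set Filter Topology

namespace Pool.Agent.H94.LP

open Pool.Agent.H93.CP Pool.Agent.H7.LP

theorem pf_PNC : T_PNC := by
  intro G X _ _ _ hP hC
  have h2 : Cardinal.mk (ℕ → Bool) = Cardinal.continuum := by simp
  obtain ⟨f, -, hf⟩ := hP
  obtain ⟨A, hA, hx⟩ := hC
  choose g hg using fun u : ℕ → Bool => hx (f u)
  have hinj : Function.Injective fun u : ℕ → Bool => (⟨g u • f u, hg u⟩ : A) := by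
    intro u v h
    by_contra hne
    have h1 : g u • f u = g v • f v := congrArg Subtype.val h
    refine hf u v hne ((g v)⁻¹ * g u) ?_
    rw [mul_smul, h1, inv_smul_smul]
  haveI : Countable A := hA.to_subtype
  have hc : Countable (ℕ → Bool) := hinj.countable
  have h1 : Cardinal.mk (ℕ → Bool) ≤ Cardinal.aleph0 := Cardinal.mk_le_aleph0
  rw [h2] at h1
  exact absurd h1 (not_le.2 Cardinal.aleph0_lt_continuum)

end Pool.Agent.H94.LP
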